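import Pool.Agent.Q209.KS.Ker
import Pool.Agent.Q14.KS.Smo
import Pool.Agent.Q298.KS.Sb3

/-!
# The Halász kernel by all derivative tests
-/

set_option autoImplicit false

namespace Pool.Agent.Zk69.BD

open Finset Pool.Agent.H376R2.MR Pool.Agent.Q240.KS
open Pool.Agent.Helper153.Vdc (ee)
open Pool.Agent.W186.EH (VB)
open Pool.Agent.Q298.KS (ee_ch ch_conj)
open Pool.Agent.Q209.KS (Wt_nonneg Wt_le Wt_zero abel_bd dyadic var_bd exp_six term_bd norm_ch)

theorem partk (k : ℕ) (hk2 : 2 ≤ k) (ε : ℝ) (hε : 0 < ε) : ∃ C : ℝ, 1 ≤ C ∧ ∀ (J m : ℕ) (τ : ℤ),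
    1 ≤ J → m ≤ J → 0 < τ →
    ‖∑ n ∈ range m, ch τ (Real.log ((J : ℝ) + 1 + n))‖ ≤
      C * (J : ℝ) ^ ε * VB k J (τ / (J : ℝ) ^ k) := by
  obtain ⟨C, hC, hC1⟩ := Pool.Agent.W347.EH.kt k hk2 (3 ^ k) (one_le_pow₀ (by norm_num)) ε hε
  have hpi := Real.pi_pos
  set c : ℝ := (k - 1).factorial / (2 * Real.pi * 3 ^ k) with hc
  have hc0 : 0 < c := by
    rw [hc]
    positivity
  set D : ℝ := c ^ (1 / ((2 : ℝ) ^ k - 2)) + c ^ (-(1 / ((2 : ℝ) ^ k - 2))) with hD
  have hD0 : 0 < D := by rw [hD]; positivity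
  refine ⟨C * D + 1, by have : 0 < C * D := by positivity
                        linarith, ?_⟩
  intro J m τ hJ hm hτ
  have hτ0 : (0 : ℝ) < τ := by exact_mod_cast hτ
  have hJ' : (1 : ℝ) ≤ J := by exact_mod_cast hJ
  have hJ0 : (0 : ℝ) < J := by linarith
  set Z : ℝ := τ / (2 * Real.pi) with hZ
  have hZ0 : 0 < Z := by rw [hZ]; positivity
  have hlam : Z * ((k - 1).factorial / (3 * (J : ℝ)) ^ k) = c * (τ / (J : ℝ) ^ k) := by
    rw [hZ, hc, mul_pow]
    field_simp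
  have hx0 : 0 < τ / (J : ℝ) ^ k := by positivity
  have e1 : ∑ n ∈ range m, ch τ (Real.log ((J : ℝ) + 1 + n)) =
      ∑ n ∈ range m, ee (-Z * Real.log ((J : ℝ) + m - n)) := by
    rw [← Pool.Agent.W903.EH.sum_rev Z J m]
    refine sum_congr rfl fun n _ => ?_
    rw [hZ, ee_ch]
  rw [e1]
  have h1 := hC1 J m (fun n : ℕ => -Z * Real.log ((J : ℝ) + m - n))
      (Z * ((k - 1).factorial / (3 * (J : ℝ)) ^ k)) hJ hm (by positivity)
      (Pool.Agent.W903.EH.cond_log (by omega) hZ0 hJ hm)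
  refine h1.trans ?_
  rw [hlam]
  have h2 := Pool.Agent.W903.EH.VB_scale (k := k) (N := (J : ℝ)) hc0 hJ0 hx0
  rw [← hD] at h2
  have hV0 : 0 ≤ VB k J (τ / (J : ℝ) ^ k) := by
    unfold VB
    positivity
  calc C * (J : ℝ) ^ ε * VB k J (c * (τ / (J : ℝ) ^ k)) ≤ C * (J : ℝ) ^ ε *
        (D * VB k J (τ / (J : ℝ) ^ k)) :=
        mul_le_mul_of_nonneg_left h2 (by positivity)
    _ = C * D * ((J : ℝ) ^ ε * VB k J (τ / (J : ℝ) ^ k)) := by ring
    _ ≤ (C * D + 1) * ((J : ℝ) ^ ε * VB k J (τ / (J : ℝ) ^ k)) := by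
        apply mul_le_mul_of_nonneg_right _ (by positivity)
        linarith
    _ = _ := by ring

theorem partk' (k : ℕ) (hk2 : 2 ≤ k) (ε : ℝ) (hε : 0 < ε) : ∃ C : ℝ, 1 ≤ C ∧ ∀ (J N' : ℕ) (τ : ℤ),
    1 ≤ J → J ≤ N' → N' ≤ 2 * J → τ ≠ 0 → ‖∑ n ∈ Ioc J N', ch τ (Real.log n)‖ ≤
      C * (J : ℝ) ^ ε * VB k J (|(τ : ℝ)| / (J : ℝ) ^ k) := by
  obtain ⟨C, hC, h⟩ := partk k hk2 ε hε
  refine ⟨C, hC, ?_⟩
  intro J N' τ hJ hN hN2 hτ
  have e0 : ∀ τ : ℤ, ∑ n ∈ Ioc J N', ch τ (Real.log n) =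
      ∑ n ∈ range (N' - J), ch τ (Real.log ((J : ℝ) + 1 + n)) := by
    intro τ
    have e1 : Ioc J N' = Ico (J + 1) (N' + 1) := by
      ext n
      rw [mem_Ioc, mem_Ico]
      omega
    rw [e1, sum_Ico_eq_sum_range]
    have e2 : N' + 1 - (J + 1) = N' - J := by omega
    rw [e2]
    refine sum_congr rfl fun n _ => ?_
    push_cast
    rfl
  rcases lt_or_gt_of_ne hτ with hk1 | hk1
  · have h1 := h J (N' - J) (-τ) hJ (by omega) (by omega)
    have e3 : ∑ n ∈ range (N' - J), ch (-τ) (Real.log ((J : ℝ) + 1 + n)) =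
        (starRingEnd ℂ) (∑ n ∈ Ioc J N', ch τ (Real.log n)) := by
      rw [e0 τ, map_sum]
      exact sum_congr rfl fun n _ => (ch_conj τ _).symm
    rw [e3, RCLike.norm_conj] at h1
    have e4 : ((-τ : ℤ) : ℝ) = |(τ : ℝ)| := by
      rw [abs_of_neg (by exact_mod_cast hk1)]
      push_cast
      rfl
    rw [e4] at h1
    exact h1
  · have h1 := h J (N' - J) τ hJ (by omega) hk1
    rw [← e0] at h1
    rw [abs_of_pos (by exact_mod_cast hk1)]
    exact h1

theorem le_two_pow_sub (k : ℕ) (hk2 : 2 ≤ k) : (k : ℝ) ≤ (2 : ℝ) ^ k - 2 := by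
  induction k, hk2 using Nat.le_induction with
  | base => norm_num
  | succ n hn ih =>
    have h2 : (2 : ℝ) ≤ n := by exact_mod_cast hn
    rw [pow_succ]
    push_cast
    linarith

/-- the two terms of the derivative test, in terms of `T = |τ|` -/
noncomputable def WB (k : ℕ) (N T : ℝ) : ℝ :=
  (T / N ^ k) ^ (1 / ((2 : ℝ) ^ k - 2)) + N ^ (-(4 / (2 : ℝ) ^ k)) * (T / N ^ k) ^ (-(1 / ((2 : ℝ) ^ k - 2)))

theorem VB_eq (k : ℕ) {N T : ℝ} (hN : 0 < N) : VB k N (T / N ^ k) = N * WB k N T := by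
  unfold VB WB
  have e1 : N ^ (1 - 4 / (2 : ℝ) ^ k) = N * N ^ (-(4 / (2 : ℝ) ^ k)) := by
    rw [sub_eq_add_neg, Real.rpow_add hN, Real.rpow_one]
  rw [e1]
  ring

/-- monotonicity of the bound in the length -/
theorem VB_mono (k : ℕ) (hk2 : 2 ≤ k) {M N T : ℝ} (hM : 0 < M) (hN : 0 < N) (hT : 0 < T)
    (hMN : M ≤ Real.exp 3 * N) : VB k M (T / M ^ k) ≤ Real.exp 6 * (N * WB k N T) := by
  rw [← VB_eq k hN]
  have hP := le_two_pow_sub k hk2
  have hk : (2 : ℝ) ≤ k := by exact_mod_cast hk2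
  set P : ℝ := (2 : ℝ) ^ k - 2 with hPd
  have hP0 : 0 < P := by linarith
  have hE3 : (1 : ℝ) ≤ Real.exp 3 := Real.one_le_exp (by norm_num)
  have hE30 : (0 : ℝ) < Real.exp 3 := Real.exp_pos _
  have hE6 : Real.exp 6 = Real.exp 3 ^ (2 : ℝ) := by
    rw [← Real.exp_mul]
    norm_num
  have hkP : (k : ℝ) / P ≤ 1 := by
    rw [div_le_one hP0]
    exact hP
  have hkP0 : 0 ≤ (k : ℝ) / P := by positivity
  -- powers
  have hpow : ∀ {x : ℝ} {e : ℝ}, 0 < x → (T / x ^ k) ^ e = T ^ e * x ^ (-(k * e)) := by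
    intro x e hx
    rw [Real.div_rpow hT.le (by positivity), ← Real.rpow_natCast, ← Real.rpow_mul hx.le,
      Real.rpow_neg hx.le, div_eq_mul_inv]
  have hmain : ∀ {a : ℝ}, 0 ≤ a → a ≤ 2 → M ^ a ≤ Real.exp 6 * N ^ a := by
    intro a ha ha2
    calc M ^ a ≤ (Real.exp 3 * N) ^ a := Real.rpow_le_rpow hM.le hMN ha
      _ = Real.exp 3 ^ a * N ^ a := Real.mul_rpow hE30.le hN.le
      _ ≤ Real.exp 3 ^ (2 : ℝ) * N ^ a := by
          apply mul_le_mul_of_nonneg_right _ (by positivity)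
          exact Real.rpow_le_rpow_of_exponent_le hE3 ha2
      _ = _ := by rw [hE6]
  have hq : 4 / (2 : ℝ) ^ k ≤ 1 := by
    rw [div_le_one (by positivity)]
    calc (4 : ℝ) = 2 ^ 2 := by norm_num
      _ ≤ 2 ^ k := pow_le_pow_right₀ (by norm_num) hk2
  have hq0 : 0 ≤ 4 / (2 : ℝ) ^ k := by positivity
  unfold VB
  rw [← hPd, hpow hM, hpow hM, hpow hN, hpow hN]
  have t1 : ∀ {x : ℝ}, 0 < x → x * (T ^ (1 / P) * x ^ (-(k * (1 / P)))) =
      T ^ (1 / P) * x ^ (1 - k / P) := by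
    intro x hx
    rw [sub_eq_add_neg, Real.rpow_add hx, Real.rpow_one]
    have : -(k * (1 / P)) = -(k / P) := by ring
    rw [this]
    ring
  have t2 : ∀ {x : ℝ}, 0 < x → x ^ (1 - 4 / (2 : ℝ) ^ k) * (T ^ (-(1 / P)) * x ^ (-(k * (-(1 / P))))) =
      T ^ (-(1 / P)) * x ^ (1 - 4 / (2 : ℝ) ^ k + k / P) := by
    intro x hx
    rw [Real.rpow_add hx (1 - 4 / (2 : ℝ) ^ k)]
    have : -(k * (-(1 / P))) = k / P := by ring
    rw [this]
    ring
  rw [t1 hM, t1 hN, t2 hM, t2 hN]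
  have h1 := hmain (a := 1 - k / P) (by linarith) (by linarith)
  have h2 := hmain (a := 1 - 4 / (2 : ℝ) ^ k + k / P) (by linarith) (by linarith)
  have h3 : 0 < T ^ (1 / P) := by positivity
  have h4 : 0 < T ^ (-(1 / P)) := by positivity
  calc T ^ (1 / P) * M ^ (1 - k / P) + T ^ (-(1 / P)) * M ^ (1 - 4 / (2 : ℝ) ^ k + k / P) ≤
      T ^ (1 / P) * (Real.exp 6 * N ^ (1 - k / P)) +
        T ^ (-(1 / P)) * (Real.exp 6 * N ^ (1 - 4 / (2 : ℝ) ^ k + k / P)) :=
        add_le_add (mul_le_mul_of_nonneg_left h1 h3.le) (mul_le_mul_of_nonneg_left h2 h4.le)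
    _ = _ := by ring

/-- the `k`-th derivative test for the kernel -/
theorem knk (k : ℕ) (hk2 : 2 ≤ k) (ε : ℝ) (hε : 0 < ε) : ∃ C : ℝ, 1 ≤ C ∧ ∀ (N : ℝ) (τ : ℤ),
    1 ≤ N → τ ≠ 0 → ‖kn N τ‖ ≤ C * N ^ ε * WB k N |(τ : ℝ)| := by
  obtain ⟨C, hC, hD⟩ := partk' k hk2 ε hε
  have hE3 : 0 < Real.exp 3 := Real.exp_pos _
  have hE6 : 0 < Real.exp 6 := Real.exp_pos _
  have hE3ε : 0 < Real.exp 3 ^ ε := by positivity
  refine ⟨Real.exp 3 + 50 * Real.exp 3 * (C * Real.exp 3 ^ ε * Real.exp 6), ?_, ?_⟩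
  · have h1 : (1 : ℝ) ≤ Real.exp 3 := Real.one_le_exp (by norm_num)
    have h2 : 0 ≤ 50 * Real.exp 3 * (C * Real.exp 3 ^ ε * Real.exp 6) := by positivity
    linarith
  intro N τ hN hτ
  have hN0 : 0 < N := by linarith
  have hτ1 : 1 ≤ |(τ : ℝ)| := by
    have h1 : 1 ≤ |τ| := Int.one_le_abs hτ
    rw [← Int.cast_abs]
    exact_mod_cast h1
  have hτ0 : 0 < |(τ : ℝ)| := by linarith
  set T : ℝ := |(τ : ℝ)| with hT
  have hE : Real.exp 3 * Real.exp (-3) = 1 := by
    rw [← Real.exp_add]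
    norm_num
  have hP := le_two_pow_sub k hk2
  have hk : (2 : ℝ) ≤ k := by exact_mod_cast hk2
  have hP0 : 0 < (2 : ℝ) ^ k - 2 := by linarith
  have hNε : 1 ≤ N ^ ε := Real.one_le_rpow hN hε.le
  -- lower bound for WB
  have hWB : 1 / N ≤ WB k N T := by
    unfold WB
    have h1 : 1 / N ≤ (T / N ^ k) ^ (1 / ((2 : ℝ) ^ k - 2)) := by
      calc 1 / N = N ^ (-(1 : ℝ)) := by rw [Real.rpow_neg hN0.le, Real.rpow_one, one_div]
        _ ≤ N ^ (-(k * (1 / ((2 : ℝ) ^ k - 2)))) := by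
            apply Real.rpow_le_rpow_of_exponent_le hN
            have : (k : ℝ) * (1 / ((2 : ℝ) ^ k - 2)) ≤ 1 := by
              rw [mul_one_div, div_le_one hP0]
              exact hP
            linarith
        _ = (1 / N ^ k) ^ (1 / ((2 : ℝ) ^ k - 2)) := by
            rw [Real.div_rpow (by norm_num) (by positivity), Real.one_rpow, ← Real.rpow_natCast N k,
              ← Real.rpow_mul hN0.le, Real.rpow_neg hN0.le, one_div (N ^ _)]
        _ ≤ _ := by
            apply Real.rpow_le_rpow (by positivity)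
            · exact div_le_div_of_nonneg_right hτ1 (by positivity)
            · positivity
    have h2 : 0 ≤ N ^ (-(4 / (2 : ℝ) ^ k)) * (T / N ^ k) ^ (-(1 / ((2 : ℝ) ^ k - 2))) := by positivity
    linarith
  have hWB0 : 0 < WB k N T := lt_of_lt_of_le (by positivity) hWB
  obtain ⟨a, ha⟩ : ∃ a : ℕ, a = max 1 ⌊N * Real.exp (-3)⌋₊ := ⟨_, rfl⟩
  obtain ⟨b, hb⟩ : ∃ b : ℕ, b = ⌊Real.exp 3 * N⌋₊ := ⟨_, rfl⟩
  have ha1 : 1 ≤ a := by rw [ha]; exact le_max_left _ _
  have hexp3 : (1 : ℝ) ≤ Real.exp 3 := Real.one_le_exp (by norm_num)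
  have hexpm3 : Real.exp (-3) ≤ 1 := Real.exp_le_one_iff.2 (by norm_num)
  have hab : a ≤ b := by
    rw [ha, hb]
    refine max_le (Nat.le_floor ?_) (Nat.floor_le_floor ?_)
    · push_cast
      nlinarith
    · nlinarith [Real.exp_pos (-3)]
  have ha2 : N * Real.exp (-3) ≤ 2 * a := by
    have h1 := Nat.lt_floor_add_one (N * Real.exp (-3))
    have h2 : ((⌊N * Real.exp (-3)⌋₊ : ℕ) : ℝ) ≤ a := by
      rw [ha]
      exact_mod_cast le_max_right _ _
    have h3 : (1 : ℝ) ≤ a := by exact_mod_cast ha1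
    linarith
  have hbN : (b : ℝ) ≤ Real.exp 3 * N := by
    rw [hb]
    exact Nat.floor_le (by positivity)
  have hb1 : 1 ≤ b := ha1.trans hab
  have hkn : kn N τ = ∑ n ∈ Ioc 0 a, ((Wt (Real.log n - Real.log N) / n : ℝ) : ℂ) *
        ch τ (Real.log n) + ∑ n ∈ Ioc a b, ((Wt (Real.log n - Real.log N) / n : ℝ) : ℂ) *
        ch τ (Real.log n) := by
    rw [Finset.sum_Ioc_consecutive _ (Nat.zero_le _) hab, hb]
    rfl
  rw [hkn]
  refine (norm_add_le _ _).trans ?_
  rw [mul_assoc, add_mul]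
  refine add_le_add ?_ ?_
  · -- the short initial piece
    have h1 : ‖∑ n ∈ Ioc 0 a, ((Wt (Real.log n - Real.log N) / n : ℝ) : ℂ) *
        ch τ (Real.log n)‖ ≤ Real.exp 3 / N := by
      by_cases h : 1 ≤ ⌊N * Real.exp (-3)⌋₊
      · have h2 : ∀ n ∈ Ioc 0 a, ((Wt (Real.log n - Real.log N) / n : ℝ) : ℂ) *
            ch τ (Real.log n) = 0 := by
          intro n hn
          rw [Finset.mem_Ioc] at hn
          have h3 : (n : ℝ) ≤ N * Real.exp (-3) := by
            have h4 : n ≤ ⌊N * Real.exp (-3)⌋₊ := by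
              rw [ha, max_eq_right h] at hn
              exact hn.2
            exact (Nat.le_floor_iff (by positivity)).1 h4
          have hn0 : (0 : ℝ) < n := by exact_mod_cast hn.1
          have h5 : Real.log n ≤ Real.log N + -3 := by
            have h6 := Real.log_le_log hn0 h3
            rwa [Real.log_mul hN0.ne' (Real.exp_pos _).ne', Real.log_exp] at h6
          rw [Wt_zero (by rw [le_abs]; right; linarith)]
          simp
        rw [Finset.sum_eq_zero h2, norm_zero]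
        positivity
      · have h2 : a = 1 := by rw [ha, max_eq_left (by omega)]
        rw [h2]
        have h3 : Ioc 0 1 = {1} := by decide
        rw [h3, Finset.sum_singleton, norm_mul, norm_ch, mul_one, Complex.norm_real,
          Real.norm_eq_abs, abs_of_nonneg (div_nonneg (Wt_nonneg _) (Nat.cast_nonneg _))]
        exact term_bd hN le_rfl
    refine h1.trans ?_
    rw [div_eq_mul_one_div]
    apply mul_le_mul_of_nonneg_left _ hE3.le
    calc 1 / N ≤ WB k N T := hWB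
      _ ≤ N ^ ε * WB k N T := le_mul_of_one_le_left hWB0.le hNε
  · set B : ℝ := C * Real.exp 3 ^ ε * Real.exp 6 * (N ^ ε * (N * WB k N T)) with hB
    have hB0 : 0 ≤ B := by positivity
    have hblock : ∀ M M' : ℕ, a ≤ M → M ≤ M' → M' ≤ 2 * M → M' ≤ b →
        ‖∑ n ∈ Ioc M M', ch τ (Real.log n)‖ ≤ B := by
      intro M M' h1 h2 h3 h4
      have hM1 : 1 ≤ M := ha1.trans h1
      have hM0 : (0 : ℝ) < M := by exact_mod_cast hM1
      refine (hD M M' τ hM1 h2 h3 hτ).trans ?_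
      have hMb : (M : ℝ) ≤ Real.exp 3 * N := le_trans (by exact_mod_cast h2.trans h4) hbN
      have h5 : (M : ℝ) ^ ε ≤ Real.exp 3 ^ ε * N ^ ε := by
        calc (M : ℝ) ^ ε ≤ (Real.exp 3 * N) ^ ε := Real.rpow_le_rpow hM0.le hMb hε.le
          _ = _ := Real.mul_rpow hE3.le hN0.le
      have h6 := VB_mono k hk2 hM0 hN0 hτ0 hMb
      have hV0 : 0 ≤ VB k M (T / (M : ℝ) ^ k) := by
        unfold VB
        positivity
      calc C * (M : ℝ) ^ ε * VB k M (T / (M : ℝ) ^ k) ≤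
          C * (Real.exp 3 ^ ε * N ^ ε) * (Real.exp 6 * (N * WB k N T)) := by
            apply mul_le_mul _ h6 hV0 (by positivity)
            exact mul_le_mul_of_nonneg_left h5 (by linarith)
        _ = B := by rw [hB]; ring
    have hba : b ≤ 2 ^ 10 * a := by
      have h1 : (b : ℝ) ≤ ((2 ^ 10 * a : ℕ) : ℝ) := by
        push_cast
        have h8 : Real.exp 6 = Real.exp 3 * Real.exp 3 := by
          rw [← Real.exp_add]
          norm_num
        have h9 : Real.exp 3 * N = Real.exp 6 * (N * Real.exp (-3)) := by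
          rw [h8]
          calc Real.exp 3 * N = Real.exp 3 * N * (Real.exp 3 * Real.exp (-3)) := by rw [hE, mul_one]
            _ = _ := by ring
        have h10 : 0 ≤ N * Real.exp (-3) := by positivity
        calc (b : ℝ) ≤ Real.exp 3 * N := hbN
          _ = Real.exp 6 * (N * Real.exp (-3)) := h9
          _ ≤ 512 * (N * Real.exp (-3)) := mul_le_mul_of_nonneg_right exp_six h10
          _ ≤ 1024 * a := by linarith
      exact_mod_cast h1
    have hpart : ∀ m, a ≤ m → m ≤ b → ‖∑ n ∈ Ioc a m, ch τ (Real.log n)‖ ≤ 10 * B := by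
      intro m h1 h2
      have h3 := dyadic (fun n : ℕ => ch τ (Real.log n)) ha1 hB0 10 m h1 (h2.trans hba)
        fun M M' e1 e2 e3 e4 => hblock M M' e1 e2 e3 (e4.trans h2)
      exact_mod_cast h3
    have h1 := abel_bd (fun n : ℕ => Wt (Real.log n - Real.log N) / n)
      (fun n : ℕ => ch τ (Real.log n)) hab hpart
    refine h1.trans ?_
    have h2 := var_bd (Real.log N) ha1 hab
    have h3 : 2 / (a : ℝ) ≤ 4 * (Real.exp 3 / N) := by
      have ha0 : (0 : ℝ) < a := by exact_mod_cast ha1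
      rw [mul_div_assoc', div_le_div_iff₀ ha0 hN0]
      have h4 : N = Real.exp 3 * (N * Real.exp (-3)) := by
        rw [mul_left_comm, hE, mul_one]
      have h5 := mul_le_mul_of_nonneg_left ha2 hE3.le
      rw [← h4] at h5
      linarith
    have h4 : |Wt (Real.log (b : ℝ) - Real.log N) / (b : ℝ)| ≤ Real.exp 3 / N := by
      rw [abs_of_nonneg (div_nonneg (Wt_nonneg _) (Nat.cast_nonneg _))]
      exact term_bd hN hb1
    have h5 : |Wt (Real.log (b : ℝ) - Real.log N) / (b : ℝ)| +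
        ∑ n ∈ Ico a b, |Wt (Real.log ((n + 1 : ℕ) : ℝ) - Real.log N) / ((n + 1 : ℕ) : ℝ) -
          Wt (Real.log n - Real.log N) / n| ≤ 5 * (Real.exp 3 / N) := by linarith
    refine (mul_le_mul_of_nonneg_left h5 (by positivity)).trans (le_of_eq ?_)
    rw [hB]
    field_simp
    ring

/-- the kernel by all derivative tests up to the `k`-th -/
theorem kx : ∀ (k : ℕ) (e : ℝ), 2 ≤ k → 0 < e → ∃ C : ℝ, 1 ≤ C ∧ ∀ (N X : ℝ) (τ : ℤ), 1 ≤ N →
    0 ≤ X → X ≤ 4 / 2 ^ k → τ ≠ 0 → |(τ : ℝ)| ≤ N ^ ((k : ℝ) - (2 ^ k - 2) * X) →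
    ‖kn N τ‖ ≤ C * N ^ e * (1 / (τ : ℝ) ^ 2 + N ^ (-X)) := by
  intro k e hk2 he
  induction k, hk2 using Nat.le_induction with
  | base =>
    obtain ⟨C, hC, hK⟩ := Pool.Agent.Q209.KS.ker Pool.Agent.Q14.KS.smo
    refine ⟨C * (1 + 1 / e), ?_, ?_⟩
    · have h1 : 0 < 1 / e := by positivity
      nlinarith
    intro N X τ hN hX0 hX hτ hτN
    have hN0 : 0 < N := by linarith
    have hNe : 1 ≤ N ^ e := Real.one_le_rpow hN he.le
    have hlog : 1 + Real.log N ≤ (1 + 1 / e) * N ^ e := by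
      have h1 : Real.log N ≤ N ^ e / e := Real.log_le_rpow_div hN0.le he
      have h2 : N ^ e / e = 1 / e * N ^ e := by ring
      nlinarith
    have hlog0 : 0 ≤ Real.log N := Real.log_nonneg hN
    refine ((hK N hN).2 τ hτ).trans ?_
    have h1 : |(τ : ℝ)| ^ (1 / 2 : ℝ) ≤ N ^ (1 - X) := by
      calc |(τ : ℝ)| ^ (1 / 2 : ℝ) ≤ (N ^ (((2 : ℕ) : ℝ) - (2 ^ 2 - 2) * X)) ^ (1 / 2 : ℝ) :=
            Real.rpow_le_rpow (abs_nonneg _) hτN (by norm_num)
        _ = _ := by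
            rw [← Real.rpow_mul hN0.le]
            congr 1
            push_cast
            ring
    have h2 : |(τ : ℝ)| ^ (1 / 2 : ℝ) * (1 + Real.log N) / N ≤ (1 + 1 / e) * N ^ e * N ^ (-X) := by
      rw [div_le_iff₀ hN0]
      calc |(τ : ℝ)| ^ (1 / 2 : ℝ) * (1 + Real.log N) ≤ N ^ (1 - X) * ((1 + 1 / e) * N ^ e) :=
            mul_le_mul h1 hlog (by linarith) (by positivity)
        _ = (1 + 1 / e) * N ^ e * N ^ (-X) * N := by
            rw [sub_eq_add_neg, Real.rpow_add hN0, Real.rpow_one]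
            ring
    have h3 : 1 / (τ : ℝ) ^ 2 ≤ (1 + 1 / e) * N ^ e * (1 / (τ : ℝ) ^ 2) := by
      apply le_mul_of_one_le_left (by positivity)
      have : 0 < 1 / e := by positivity
      nlinarith
    calc C * (1 / (τ : ℝ) ^ 2 + |(τ : ℝ)| ^ (1 / 2 : ℝ) * (1 + Real.log N) / N) ≤
        C * ((1 + 1 / e) * N ^ e * (1 / (τ : ℝ) ^ 2) + (1 + 1 / e) * N ^ e * N ^ (-X)) :=
          mul_le_mul_of_nonneg_left (add_le_add h3 h2) (by linarith)
      _ = _ := by ring
  | succ k hk ih =>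
    obtain ⟨C1, hC1, h1⟩ := ih
    obtain ⟨C2, hC2, h2⟩ := knk (k + 1) (by omega) e he
    refine ⟨C1 + 2 * C2, by linarith, ?_⟩
    intro N X τ hN hX0 hX hτ hτN
    have hN0 : 0 < N := by linarith
    have hNe : 0 < N ^ e := by positivity
    have hτ0 : (τ : ℝ) ≠ 0 := by exact_mod_cast hτ
    have hS0 : 0 ≤ 1 / (τ : ℝ) ^ 2 := by positivity
    have hNX : 0 < N ^ (-X) := by positivity
    have hQ0 : (0 : ℝ) < 2 ^ k := by positivity
    have hQ4 : (4 : ℝ) ≤ 2 ^ k := by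
      calc (4 : ℝ) = 2 ^ 2 := by norm_num
        _ ≤ 2 ^ k := pow_le_pow_right₀ (by norm_num) hk
    by_cases hc : |(τ : ℝ)| ≤ N ^ ((k : ℝ) - (2 ^ k - 2) * X)
    · have hX' : X ≤ 4 / 2 ^ k := by
        refine hX.trans ?_
        rw [pow_succ]
        apply div_le_div_of_nonneg_left (by norm_num) hQ0
        linarith
      refine (h1 N X τ hN hX0 hX' hτ hc).trans ?_
      rw [mul_assoc, mul_assoc]
      apply mul_le_mul_of_nonneg_right _ (by positivity)
      linarith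
    · push Not at hc
      -- `2 ^ k X < 1`
      have hXQ : 2 ^ k * X < 1 := by
        by_contra hcon
        push Not at hcon
        have h3 : N ^ (((k + 1 : ℕ) : ℝ) - (2 ^ (k + 1) - 2) * X) ≤ N ^ ((k : ℝ) - (2 ^ k - 2) * X) := by
          apply Real.rpow_le_rpow_of_exponent_le hN
          rw [pow_succ]
          push_cast
          linarith
        linarith
      have hτpos : 0 < |(τ : ℝ)| := abs_pos.2 hτ0
      set T : ℝ := |(τ : ℝ)| with hT
      have hP0 : (0 : ℝ) < 2 ^ (k + 1) - 2 := by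
        rw [pow_succ]
        linarith
      -- first term
      have hA : (T / N ^ (k + 1)) ^ (1 / ((2 : ℝ) ^ (k + 1) - 2)) ≤ N ^ (-X) := by
        have h3 : T / N ^ (k + 1) ≤ N ^ (-((2 ^ (k + 1) - 2) * X)) := by
          rw [div_le_iff₀ (by positivity)]
          refine hτN.trans (le_of_eq ?_)
          rw [← Real.rpow_natCast N (k + 1), ← Real.rpow_add hN0]
          congr 1
          push_cast
          ring
        calc (T / N ^ (k + 1)) ^ (1 / ((2 : ℝ) ^ (k + 1) - 2)) ≤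
            (N ^ (-((2 ^ (k + 1) - 2) * X))) ^ (1 / ((2 : ℝ) ^ (k + 1) - 2)) :=
              Real.rpow_le_rpow (by positivity) h3 (by positivity)
          _ = N ^ (-X) := by
              rw [← Real.rpow_mul hN0.le]
              congr 1
              field_simp
      -- second term
      have hB : N ^ (-(4 / (2 : ℝ) ^ (k + 1))) * (T / N ^ (k + 1)) ^ (-(1 / ((2 : ℝ) ^ (k + 1) - 2))) ≤
          N ^ (-X) := by
        have h3 : N ^ (-(1 + (2 ^ k - 2) * X)) ≤ T / N ^ (k + 1) := by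
          rw [le_div_iff₀ (by positivity)]
          refine (le_of_eq ?_).trans hc.le
          rw [← Real.rpow_natCast N (k + 1), ← Real.rpow_add hN0]
          congr 1
          push_cast
          ring
        have h4 : (T / N ^ (k + 1)) ^ (-(1 / ((2 : ℝ) ^ (k + 1) - 2))) ≤
            (N ^ (-(1 + (2 ^ k - 2) * X))) ^ (-(1 / ((2 : ℝ) ^ (k + 1) - 2))) :=
          Real.rpow_le_rpow_of_nonpos (by positivity) h3 (by
            have : 0 < 1 / ((2 : ℝ) ^ (k + 1) - 2) := by positivity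
            linarith)
        refine (mul_le_mul_of_nonneg_left h4 (by positivity)).trans ?_
        rw [← Real.rpow_mul hN0.le, ← Real.rpow_add hN0]
        apply Real.rpow_le_rpow_of_exponent_le hN
        have h5 : -(1 + (2 ^ k - 2) * X) * -(1 / ((2 : ℝ) ^ (k + 1) - 2)) =
            (1 + (2 ^ k - 2) * X) / ((2 : ℝ) ^ (k + 1) - 2) := by ring
        rw [h5]
        have h6 : X + (1 + (2 ^ k - 2) * X) / ((2 : ℝ) ^ (k + 1) - 2) ≤ 4 / (2 : ℝ) ^ (k + 1) := by
          rw [pow_succ]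
          rw [pow_succ] at hP0
          set Q : ℝ := 2 ^ k with hQ
          have h7 : 4 / (Q * 2) = 2 / Q := by
            field_simp
            norm_num
          rw [h7, ← sub_nonneg]
          have h8 : 2 / Q - (X + (1 + (Q - 2) * X) / (Q * 2 - 2)) =
              (1 - Q * X) * (3 * Q - 4) / (Q * (Q * 2 - 2)) := by
            have hQ1 : Q * 2 - 2 ≠ 0 := hP0.ne'
            have hQne : Q ≠ 0 := hQ0.ne'
            rw [eq_div_iff (mul_ne_zero hQne hQ1), sub_mul, add_mul]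
            have e1 : 2 / Q * (Q * (Q * 2 - 2)) = 2 * (Q * 2 - 2) := by
              field_simp
            have e2 : (1 + (Q - 2) * X) / (Q * 2 - 2) * (Q * (Q * 2 - 2)) = (1 + (Q - 2) * X) * Q := by
              rw [div_mul_eq_mul_div, div_eq_iff hQ1]
              ring
            rw [e1, e2]
            ring
          rw [h8]
          apply div_nonneg
          · apply mul_nonneg <;> linarith
          · positivity
        linarith
      refine (h2 N τ hN hτ).trans ?_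
      unfold WB
      calc C2 * N ^ e * ((T / N ^ (k + 1)) ^ (1 / ((2 : ℝ) ^ (k + 1) - 2)) +
            N ^ (-(4 / (2 : ℝ) ^ (k + 1))) * (T / N ^ (k + 1)) ^ (-(1 / ((2 : ℝ) ^ (k + 1) - 2)))) ≤
          C2 * N ^ e * (N ^ (-X) + N ^ (-X)) :=
            mul_le_mul_of_nonneg_left (add_le_add hA hB) (by positivity)
        _ = 2 * C2 * (N ^ e * N ^ (-X)) := by ring
        _ ≤ (C1 + 2 * C2) * (N ^ e * (1 / (τ : ℝ) ^ 2 + N ^ (-X))) := by
            apply mul_le_mul (by linarith) _ (by positivity) (by linarith)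
            apply mul_le_mul_of_nonneg_left _ hNe.le
            linarith
        _ = _ := by ring

end Pool.Agent.Zk69.BD
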