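import Mathlib

/-!
# Powers of sums over primes
-/

set_option autoImplicit false

namespace Pool.Agent.Zk69.BD

open Finset

/-- the products of `j` elements of `B` -/
def sB (B : Finset ℕ) : ℕ → Finset ℕ
  | 0 => {1}
  | j + 1 => (B ×ˢ sB B j).image fun x => x.1 * x.2

/-- the number of ways to write `n` as a product of `j` elements of `B` -/
def bb (B : Finset ℕ) : ℕ → ℕ → ℕ
  | 0 => fun n => if n = 1 then 1 else 0
  | j + 1 => fun n => ∑ x ∈ (B ×ˢ sB B j).filter (fun x => x.1 * x.2 = n), bb B j x.2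

theorem sB_pos (B : Finset ℕ) (hB : ∀ p ∈ B, 1 ≤ p) (j : ℕ) : ∀ n ∈ sB B j, 1 ≤ n := by
  induction j with
  | zero =>
    intro n hn
    simp only [sB, mem_singleton] at hn
    omega
  | succ j ih =>
    intro n hn
    simp only [sB, mem_image, mem_product] at hn
    obtain ⟨x, ⟨h1, h2⟩, rfl⟩ := hn
    exact Nat.mul_pos (hB _ h1) (ih _ h2)

/-- the power of a sum -/
theorem sum_pow {R : Type*} [CommSemiring R] (B : Finset ℕ) (hB : ∀ p ∈ B, 1 ≤ p) (g : ℕ → R)
    (h1 : g 1 = 1) (hg : ∀ p ∈ B, ∀ n, 1 ≤ n → g (p * n) = g p * g n) (j : ℕ) :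
    ∑ n ∈ sB B j, (bb B j n : R) * g n = (∑ p ∈ B, g p) ^ j := by
  induction j with
  | zero => simp [sB, bb, h1]
  | succ j ih =>
    rw [pow_succ', ← ih, Finset.sum_mul_sum]
    rw [← Finset.sum_product (s := B) (t := sB B j) (f := fun x => g x.1 * ((bb B j x.2 : R) * g x.2))]
    have h2 : ∑ n ∈ sB B (j + 1), (bb B (j + 1) n : R) * g n =
        ∑ n ∈ sB B (j + 1), ∑ x ∈ (B ×ˢ sB B j).filter (fun x => x.1 * x.2 = n),
          g x.1 * ((bb B j x.2 : R) * g x.2) := by
      refine sum_congr rfl fun n _ => ?_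
      simp only [bb]
      rw [Nat.cast_sum, sum_mul]
      refine sum_congr rfl fun x hx => ?_
      rw [mem_filter, mem_product] at hx
      rw [← hx.2, hg x.1 hx.1.1 x.2 (sB_pos B hB j _ hx.1.2)]
      ring
    rw [h2]
    exact Finset.sum_fiberwise_of_maps_to (s := B ×ˢ sB B j) (t := sB B (j + 1))
      (g := fun x : ℕ × ℕ => x.1 * x.2) (fun x hx => by
        simp only [sB]
        exact mem_image_of_mem _ hx) _

theorem cardFactors_sB (B : Finset ℕ) (hB : ∀ p ∈ B, p.Prime) (j : ℕ) :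
    ∀ n ∈ sB B j, ArithmeticFunction.cardFactors n = j := by
  induction j with
  | zero =>
    intro n hn
    simp only [sB, mem_singleton] at hn
    rw [hn]
    simp
  | succ j ih =>
    intro n hn
    have hB1 : ∀ p ∈ B, 1 ≤ p := fun p hp => (hB p hp).one_lt.le
    simp only [sB, mem_image, mem_product] at hn
    obtain ⟨x, ⟨h1, h2⟩, rfl⟩ := hn
    have h3 := sB_pos B hB1 j _ h2
    rw [ArithmeticFunction.cardFactors_mul (hB _ h1).ne_zero (by omega), ih _ h2,
      ArithmeticFunction.cardFactors_eq_one_iff_prime.2 (hB _ h1)]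
    ring

theorem bb_le (B : Finset ℕ) (hB : ∀ p ∈ B, p.Prime) (j : ℕ) : ∀ n, bb B j n ≤ j.factorial := by
  induction j with
  | zero =>
    intro n
    simp only [bb]
    split_ifs <;> simp
  | succ j ih =>
    intro n
    simp only [bb]
    have h1 : ∑ x ∈ (B ×ˢ sB B j).filter (fun x => x.1 * x.2 = n), bb B j x.2 ≤
        ∑ x ∈ (B ×ˢ sB B j).filter (fun x => x.1 * x.2 = n), j.factorial :=
      sum_le_sum fun x _ => ih _
    refine h1.trans ?_
    rw [sum_const, smul_eq_mul, Nat.factorial_succ]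
    apply Nat.mul_le_mul_right
    by_cases hne : ((B ×ˢ sB B j).filter (fun x => x.1 * x.2 = n)).Nonempty
    · have hB1 : ∀ p ∈ B, 1 ≤ p := fun p hp => (hB p hp).one_lt.le
      obtain ⟨y, hy⟩ := hne
      rw [mem_filter] at hy
      have hn : n ∈ sB B (j + 1) := by
        simp only [sB]
        exact mem_image.2 ⟨y, hy⟩
      have hn0 : n ≠ 0 := by
        have := sB_pos B hB1 (j + 1) n hn
        omega
      have h2 := cardFactors_sB B hB (j + 1) n hn
      rw [← h2]
      have h3 : n.primeFactors.card ≤ ArithmeticFunction.cardFactors n := by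
        rw [ArithmeticFunction.cardFactors_apply]
        exact List.toFinset_card_le _
      refine le_trans ?_ h3
      apply card_le_card_of_injOn Prod.fst
      · intro x hx
        have hx' := mem_filter.1 (mem_coe.1 hx)
        have hx1 := (mem_product.1 hx'.1).1
        exact mem_coe.2 (Nat.mem_primeFactors.2 ⟨hB _ hx1, ⟨x.2, hx'.2.symm⟩, hn0⟩)
      · intro x hx y hy hxy
        have hx' := mem_filter.1 (mem_coe.1 hx)
        have hy' := mem_filter.1 (mem_coe.1 hy)
        have hx1 := (mem_product.1 hx'.1).1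
        have hxy' : x.1 = y.1 := hxy
        have h4 : x.2 = y.2 := by
          have h5 : x.1 * x.2 = x.1 * y.2 := by rw [hx'.2, hxy', hy'.2]
          exact Nat.eq_of_mul_eq_mul_left (hB _ hx1).pos h5
        exact Prod.ext hxy' h4
    · rw [not_nonempty_iff_eq_empty] at hne
      rw [hne]
      simp

/-- the size of the products -/
theorem log_sB (B : Finset ℕ) (hB : ∀ p ∈ B, 1 ≤ p) {l h : ℝ} (j : ℕ)
    (hl : ∀ p ∈ B, l ≤ Real.log p ∧ Real.log p ≤ l + h) :
    ∀ n ∈ sB B j, j * l ≤ Real.log n ∧ Real.log n ≤ j * l + j * h := by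
  induction j with
  | zero =>
    intro n hn
    simp only [sB, mem_singleton] at hn
    rw [hn]
    simp
  | succ j ih =>
    intro n hn
    simp only [sB, mem_image, mem_product] at hn
    obtain ⟨x, ⟨h1, h2⟩, rfl⟩ := hn
    have h3 := sB_pos B hB j _ h2
    have h4 : (x.1 : ℝ) ≠ 0 := by
      have := hB _ h1
      have : x.1 ≠ 0 := by omega
      exact_mod_cast this
    have h5 : (x.2 : ℝ) ≠ 0 := by
      have : x.2 ≠ 0 := by omega
      exact_mod_cast this
    push_cast
    rw [Real.log_mul h4 h5]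
    have h6 := ih _ h2
    have h7 := hl _ h1
    constructor <;> nlinarith

/-- the quadratic form of the power -/
theorem G_bound (B : Finset ℕ) (hB : ∀ p ∈ B, p.Prime) (κ : ℝ) (j : ℕ) :
    ∑ n ∈ sB B j, (n : ℝ) ^ κ * ‖(bb B j n : ℂ)‖ ^ 2 ≤ (j.factorial : ℝ) * (∑ p ∈ B, (p : ℝ) ^ κ) ^ j := by
  have hB1 : ∀ p ∈ B, 1 ≤ p := fun p hp => (hB p hp).one_lt.le
  have h1 := sum_pow B hB1 (fun n : ℕ => (n : ℝ) ^ κ) (by simp) (fun p _ n _ => by
    push_cast
    exact Real.mul_rpow (Nat.cast_nonneg _) (Nat.cast_nonneg _)) j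
  rw [← h1, mul_sum]
  refine sum_le_sum fun n _ => ?_
  rw [Complex.norm_natCast]
  have h2 : (bb B j n : ℝ) ≤ j.factorial := by exact_mod_cast bb_le B hB j n
  have h3 : (0 : ℝ) ≤ (n : ℝ) ^ κ := by positivity
  have h4 : (0 : ℝ) ≤ bb B j n := Nat.cast_nonneg _
  calc (n : ℝ) ^ κ * (bb B j n : ℝ) ^ 2 = (bb B j n : ℝ) * ((bb B j n : ℝ) * (n : ℝ) ^ κ) := by ring
    _ ≤ _ := mul_le_mul_of_nonneg_right h2 (by positivity)

/-- the power of a prime sum as a Dirichlet polynomial -/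
theorem pow_eq (B : Finset ℕ) (hB : ∀ p ∈ B, 1 ≤ p) (z : ℂ) (j : ℕ) :
    (∑ p ∈ B, (p : ℂ) ^ (-z)) ^ j = ∑ n ∈ sB B j, (bb B j n : ℂ) * (n : ℂ) ^ (-z) := by
  refine (sum_pow B hB (fun n : ℕ => (n : ℂ) ^ (-z)) (by simp) (fun p _ n _ => ?_) j).symm
  push_cast
  exact Complex.natCast_mul_natCast_cpow _ _ _

end Pool.Agent.Zk69.BD
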