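import Pool.Agent.Zk69.BD.Rows
import Pool.Agent.Zk69.BD.Pow

/-!
# Large values of a block of primes
-/

set_option autoImplicit false

namespace Pool.Agent.Zk69.BD

open Finset

/-- number of elements of a set of positive integers with bounded logarithm -/
theorem card_le_exp (B : Finset ℕ) (x : ℝ) (hB : ∀ p ∈ B, 1 ≤ p ∧ Real.log p ≤ x) :
    (B.card : ℝ) ≤ Real.exp x := by
  have h1 : B ⊆ Finset.Ioc 0 ⌊Real.exp x⌋₊ := by
    intro p hp
    have h2 := hB p hp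
    have hp0 : (0 : ℝ) < p := by exact_mod_cast h2.1
    rw [Finset.mem_Ioc]
    refine ⟨h2.1, Nat.le_floor ?_⟩
    rw [← Real.exp_log hp0]
    exact Real.exp_le_exp.2 h2.2
  have h3 := Finset.card_le_card h1
  rw [Nat.card_Ioc, Nat.sub_zero] at h3
  calc (B.card : ℝ) ≤ (⌊Real.exp x⌋₊ : ℝ) := by exact_mod_cast h3
    _ ≤ _ := Nat.floor_le (Real.exp_pos _).le

theorem rpow_exp_eq (x y : ℝ) : Real.exp x ^ y = Real.exp (x * y) := (Real.exp_mul x y).symm

theorem blk (k : ℕ) (hk : 2 ≤ k) (δ : ℝ) (hδ : 0 < δ) (hδk : δ ≤ 1 / (12 * 2 ^ k)) (q : ℕ) (hq : 1 ≤ q) :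
    ∃ C : ℝ, 1 ≤ C ∧ ∀ (y σ : ℝ) (B : Finset ℕ) (K : ℕ) (L : Finset ℤ) (z : ℤ → ℂ), 0 ≤ y → K ≤ q →
      1 - (1 / 2) ^ k ≤ σ → σ ≤ 1 → (∀ p ∈ B, p.Prime ∧ y ≤ Real.log p ∧ Real.log p ≤ y + 1 / q) →
      (∀ m ∈ L, σ - δ ≤ (z m).re ∧ (z m).re ≤ 4 ∧ |(z m).im - m| ≤ 3 ∧
        1 ≤ ‖∑ p ∈ B, (p : ℂ) ^ (-(z m))‖) →
      (∀ m ∈ L, ∀ m' ∈ L, |(m : ℝ) - m'| ≤
        Real.exp (K * y * ((k : ℝ) - (2 ^ k - 2) * (2 - 2 * σ + 6 * δ)))) →
      C ≤ Real.exp (K * y * δ) →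
      (L.card : ℝ) ≤ C * Real.exp (K * y * (2 - 2 * σ + 5 * δ)) := by
  have h2k : (4 : ℝ) ≤ 2 ^ k := by
    calc (4 : ℝ) = 2 ^ 2 := by norm_num
      _ ≤ 2 ^ k := pow_le_pow_right₀ (by norm_num) hk
  have h2k0 : (0 : ℝ) < 2 ^ k := by linarith
  have hδ' : 12 * (2 ^ k * δ) ≤ 1 := by
    rw [le_div_iff₀ (by positivity)] at hδk
    linarith
  have hδ48 : δ ≤ 1 / 48 := by nlinarith
  obtain ⟨C, hC, h⟩ := core k δ δ hk hδ hδ (by linarith)
  have hq0 : (0 : ℝ) < q := by exact_mod_cast hq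
  have hqf : (1 : ℝ) ≤ q.factorial := by exact_mod_cast Nat.factorial_pos q
  have hEq : (1 : ℝ) ≤ Real.exp q := Real.one_le_exp hq0.le
  refine ⟨2 * (C * (q.factorial * Real.exp q)), ?_, ?_⟩
  · have : 1 ≤ C * (q.factorial * Real.exp q) := by
      have h1 : 1 ≤ (q.factorial : ℝ) * Real.exp q := one_le_mul_of_one_le_of_one_le hqf hEq
      exact one_le_mul_of_one_le_of_one_le hC h1
    linarith
  intro y σ B K L z hy hK hσ1 hσ2 hB hL hdiam hlarge
  set s : ℝ := 2 - 2 * σ with hs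
  have hs0 : 0 ≤ s := by rw [hs]; linarith
  have hs2 : 2 ^ k * s ≤ 2 := by
    rw [hs]
    have h1 : (2 : ℝ) ^ k * (1 / 2) ^ k = 1 := by
      rw [← mul_pow]
      norm_num
    nlinarith
  have hs12 : s ≤ 1 / 2 := by nlinarith
  set N : ℝ := Real.exp (K * y) with hN
  have hN1 : 1 ≤ N := Real.one_le_exp (by positivity)
  have hN0 : 0 < N := by linarith
  have hNp : ∀ x : ℝ, N ^ x = Real.exp (K * y * x) := fun x => by rw [hN, rpow_exp_eq]
  have hX : s + 6 * δ ≤ 4 / 2 ^ k := by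
    rw [le_div_iff₀ h2k0]
    nlinarith
  have hlogN : Real.log N = K * y := by rw [hN, Real.log_exp]
  have hB1 : ∀ p ∈ B, 1 ≤ p := fun p hp => (hB p hp).1.one_lt.le
  have hBp : ∀ p ∈ B, p.Prime := fun p hp => (hB p hp).1
  have hqq : (1 : ℝ) ≤ q := by exact_mod_cast hq
  have hsup : ∀ n ∈ sB B K, 1 ≤ n ∧ |Real.log n - Real.log N| ≤ 2 := by
    intro n hn
    refine ⟨sB_pos B hB1 K n hn, ?_⟩
    have h1 := log_sB B hB1 K (l := y) (h := 1 / q) (fun p hp => (hB p hp).2) n hn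
    have h2 : (K : ℝ) * (1 / q) ≤ 1 := by
      rw [mul_one_div, div_le_one hq0]
      exact_mod_cast hK
    rw [hlogN, abs_le]
    constructor <;> linarith
  have h1 := h N (s + 6 * δ) σ (sB B K) (fun n => (bb B K n : ℂ)) L z hN1 (by positivity) hX hsup
    (by
      intro m hm m' hm'
      rw [hNp]
      exact hdiam m hm m' hm')
    (by nlinarith [h2k, hs12]) (fun m hm => ⟨(hL m hm).1, (hL m hm).2.1, (hL m hm).2.2.1⟩)
  -- lower bound of the left side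
  have hlow : (L.card : ℝ) ≤ ∑ m ∈ L, ‖∑ n ∈ sB B K, (bb B K n : ℂ) * (n : ℂ) ^ (-(z m))‖ ^ 2 := by
    have h2 : (L.card : ℝ) = ∑ m ∈ L, (1 : ℝ) := by simp
    rw [h2]
    refine sum_le_sum fun m hm => ?_
    rw [← pow_eq B hB1, norm_pow]
    exact one_le_pow₀ (one_le_pow₀ (hL m hm).2.2.2)
  -- upper bound of the quadratic form
  set κ : ℝ := 1 - 2 * (σ - 2 * δ) with hκ
  have hκ0 : κ ≤ 0 := by
    rw [hκ]
    have : s = 2 - 2 * σ := hs
    linarith
  have hκs : 1 + κ = s + 4 * δ := by rw [hκ, hs]; ring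
  have hsumB : ∑ p ∈ B, (p : ℝ) ^ κ ≤ Real.exp (1 + y * (s + 4 * δ)) := by
    have h2 : ∀ p ∈ B, (p : ℝ) ^ κ ≤ Real.exp (y * κ) := by
      intro p hp
      have hp0 : (0 : ℝ) < p := by exact_mod_cast hB1 p hp
      rw [Real.rpow_def_of_pos hp0]
      apply Real.exp_le_exp.2
      have := (hB p hp).2.1
      nlinarith
    have h3 := card_le_exp B (y + 1) (fun p hp => ⟨hB1 p hp, by
      have h4 := (hB p hp).2.2
      have h5 : 1 / (q : ℝ) ≤ 1 := by
        rw [div_le_one hq0]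
        exact hqq
      linarith⟩)
    calc ∑ p ∈ B, (p : ℝ) ^ κ ≤ ∑ p ∈ B, Real.exp (y * κ) := sum_le_sum h2
      _ = B.card * Real.exp (y * κ) := by rw [sum_const, nsmul_eq_mul]
      _ ≤ Real.exp (y + 1) * Real.exp (y * κ) := mul_le_mul_of_nonneg_right h3 (Real.exp_pos _).le
      _ = Real.exp (1 + y * (s + 4 * δ)) := by
          rw [← Real.exp_add, ← hκs]
          congr 1
          ring
  have hG : ∑ n ∈ sB B K, (n : ℝ) ^ κ * ‖(bb B K n : ℂ)‖ ^ 2 ≤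
      q.factorial * Real.exp q * N ^ (s + 4 * δ) := by
    refine (G_bound B hBp κ K).trans ?_
    have h2 : (∑ p ∈ B, (p : ℝ) ^ κ) ^ K ≤ Real.exp q * N ^ (s + 4 * δ) := by
      calc (∑ p ∈ B, (p : ℝ) ^ κ) ^ K ≤ Real.exp (1 + y * (s + 4 * δ)) ^ K :=
            pow_le_pow_left₀ (by positivity) hsumB K
        _ = Real.exp K * N ^ (s + 4 * δ) := by
            rw [← Real.exp_nat_mul, hNp, ← Real.exp_add]
            congr 1
            ring
        _ ≤ _ := by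
            apply mul_le_mul_of_nonneg_right _ (by positivity)
            exact Real.exp_le_exp.2 (by exact_mod_cast hK)
    have h3 : (K.factorial : ℝ) ≤ q.factorial := by exact_mod_cast Nat.factorial_le hK
    calc (K.factorial : ℝ) * (∑ p ∈ B, (p : ℝ) ^ κ) ^ K ≤
        q.factorial * (Real.exp q * N ^ (s + 4 * δ)) := by
          apply mul_le_mul h3 h2 (by positivity) (by positivity)
      _ = _ := by ring
  have hM0 : 0 < C * (q.factorial * Real.exp q) := by positivity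
  set M : ℝ := C * (q.factorial * Real.exp q) with hM
  have h5 : (L.card : ℝ) ≤ M * N ^ (s + 5 * δ) + M * N ^ (-δ) * L.card := by
    calc (L.card : ℝ) ≤ C * N ^ δ * (1 + L.card * N ^ (-(s + 6 * δ))) *
          ∑ n ∈ sB B K, (n : ℝ) ^ κ * ‖(bb B K n : ℂ)‖ ^ 2 := hlow.trans h1
      _ ≤ C * N ^ δ * (1 + L.card * N ^ (-(s + 6 * δ))) *
          (q.factorial * Real.exp q * N ^ (s + 4 * δ)) := mul_le_mul_of_nonneg_left hG (by positivity)
      _ = M * N ^ (s + 5 * δ) + M * N ^ (-δ) * L.card := by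
          have e1 : N ^ (s + 5 * δ) = N ^ δ * N ^ (s + 4 * δ) := by
            rw [← Real.rpow_add hN0]
            congr 1
            ring
          have e2 : N ^ (-δ) = N ^ δ * N ^ (-(s + 6 * δ)) * N ^ (s + 4 * δ) := by
            rw [← Real.rpow_add hN0, ← Real.rpow_add hN0]
            congr 1
            ring
          rw [e1, e2, hM]
          ring
  have h6 : M * N ^ (-δ) ≤ 1 / 2 := by
    rw [Real.rpow_neg hN0.le, hNp, ← div_eq_mul_inv, div_le_iff₀ (Real.exp_pos _)]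
    linarith
  have h7 : M * N ^ (-δ) * L.card ≤ 1 / 2 * L.card := mul_le_mul_of_nonneg_right h6 (Nat.cast_nonneg _)
  rw [← hNp]
  linarith

end Pool.Agent.Zk69.BD
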