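import Pool.Agent.Zk69.BD.Kx
import Pool.Agent.Q209.KS.Hu
import Pool.Agent.H402R2.SubMean

/-!
# Mean squares over well spaced points in a half plane
-/

set_option autoImplicit false

namespace Pool.Agent.Zk69.BD

open Finset Pool.Agent.H376R2.MR Pool.Agent.Q240.KS

/-- Halász-Montgomery with the row sums inserted -/
theorem rows : ∀ (k : ℕ) (e : ℝ), 2 ≤ k → 0 < e → ∃ C : ℝ, 1 ≤ C ∧ ∀ (N X : ℝ) (s : Finset ℕ) (a : ℕ → ℂ)
    (L : Finset ℤ), 1 ≤ N → 0 ≤ X → X ≤ 4 / 2 ^ k →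
    (∀ n ∈ s, 1 ≤ n ∧ |Real.log n - Real.log N| ≤ 2) →
    (∀ m ∈ L, ∀ m' ∈ L, |(m : ℝ) - m'| ≤ N ^ ((k : ℝ) - (2 ^ k - 2) * X)) →
    ∑ m ∈ L, ‖DP s a m‖ ^ 2 ≤ C * N ^ e * (1 + L.card * N ^ (-X)) * ∑ n ∈ s, (n : ℝ) * ‖a n‖ ^ 2 := by
  intro k e hk he
  obtain ⟨C, hC, h⟩ := kx k e hk he
  refine ⟨Real.exp 6 + 4 * C, ?_, ?_⟩
  · have : 0 < Real.exp 6 := Real.exp_pos _
    linarith
  intro N X s a L hN hX0 hX hs hL
  have hN0 : 0 < N := by linarith
  have hNe : 1 ≤ N ^ e := Real.one_le_rpow hN he.le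
  have hNX : 0 < N ^ (-X) := by positivity
  have hE6 : 0 < Real.exp 6 := Real.exp_pos _
  have hrow : ∀ m ∈ L, ∑ l ∈ L, ‖kn N (m - l)‖ ≤ (Real.exp 6 + 4 * C) * N ^ e * (1 + L.card * N ^ (-X)) := by
    intro m hm
    have h1 : ∑ l ∈ L, ‖kn N (m - l)‖ = ‖kn N (m - m)‖ + ∑ l ∈ L.erase m, ‖kn N (m - l)‖ :=
      (Finset.add_sum_erase _ _ hm).symm
    have h2 : ∑ l ∈ L.erase m, ‖kn N (m - l)‖ ≤
        ∑ l ∈ L.erase m, C * N ^ e * (1 / ((m - l : ℤ) : ℝ) ^ 2 + N ^ (-X)) := by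
      apply Finset.sum_le_sum
      intro l hl
      rw [Finset.mem_erase] at hl
      refine h N X (m - l) hN hX0 hX (sub_ne_zero.2 (Ne.symm hl.1)) ?_
      push_cast
      exact hL m hm l hl.2
    have h3 : ∑ l ∈ L.erase m, 1 / ((m - l : ℤ) : ℝ) ^ 2 ≤ 4 := by
      have h4 := Pool.Agent.Q209.KS.inv_sq_le ((L.erase m).image fun l => m - l) (by
        intro τ hτ
        rw [Finset.mem_image] at hτ
        obtain ⟨l, hl, rfl⟩ := hτ
        rw [Finset.mem_erase] at hl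
        exact sub_ne_zero.2 (Ne.symm hl.1))
      rwa [Finset.sum_image (by
        intro x _ y _ hxy
        simpa using hxy)] at h4
    have h5 : ∑ l ∈ L.erase m, C * N ^ e * (1 / ((m - l : ℤ) : ℝ) ^ 2 + N ^ (-X)) ≤
        C * N ^ e * (4 + L.card * N ^ (-X)) := by
      rw [← Finset.mul_sum, Finset.sum_add_distrib, Finset.sum_const, nsmul_eq_mul]
      apply mul_le_mul_of_nonneg_left _ (by positivity)
      apply add_le_add h3
      apply mul_le_mul_of_nonneg_right _ hNX.le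
      exact_mod_cast Finset.card_erase_le
    have h6 : ‖kn N (m - m)‖ ≤ Real.exp 6 := by
      rw [sub_self]
      exact Pool.Agent.Q209.KS.ker_zero hN
    have hc0 : (0 : ℝ) ≤ L.card * N ^ (-X) := by positivity
    calc ∑ l ∈ L, ‖kn N (m - l)‖ ≤ Real.exp 6 + C * N ^ e * (4 + L.card * N ^ (-X)) := by
          rw [h1]
          exact add_le_add h6 (h2.trans h5)
      _ ≤ Real.exp 6 * (N ^ e * (1 + L.card * N ^ (-X))) + 4 * C * (N ^ e * (1 + L.card * N ^ (-X))) := by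
          apply add_le_add
          · apply le_mul_of_one_le_right hE6.le
            nlinarith
          · have : 4 * C * (N ^ e * (1 + L.card * N ^ (-X))) =
                C * N ^ e * (4 + 4 * (L.card * N ^ (-X))) := by ring
            rw [this]
            apply mul_le_mul_of_nonneg_left _ (by positivity)
            linarith
      _ = _ := by ring
  exact Pool.Agent.Q209.KS.hmg s a N _ L hN (by positivity) hs hrow

/-- Dirichlet polynomials at `w + i m` -/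
theorem DP_shift (s : Finset ℕ) (b : ℕ → ℂ) (w : ℂ) (m : ℤ) (hs : ∀ n ∈ s, 1 ≤ n) :
    DP s (fun n => b n * (n : ℂ) ^ (-w)) m = ∑ n ∈ s, b n * (n : ℂ) ^ (-(w + m * Complex.I)) := by
  unfold DP
  refine Finset.sum_congr rfl fun n hn => ?_
  have hn1 := hs n hn
  have hn0 : (n : ℂ) ≠ 0 := by
    have : n ≠ 0 := by omega
    exact_mod_cast this
  rw [neg_add, Complex.cpow_add _ _ hn0, mul_assoc]
  congr 2
  unfold ch
  rw [Complex.cpow_def_of_ne_zero hn0, ← Complex.natCast_log]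
  congr 1
  push_cast
  ring

/-- points near the line with real part at least `σ - δ` -/
theorem core : ∀ (k : ℕ) (e δ : ℝ), 2 ≤ k → 0 < e → 0 < δ → δ ≤ 1 → ∃ C : ℝ, 1 ≤ C ∧
    ∀ (N X σ : ℝ) (s : Finset ℕ) (b : ℕ → ℂ) (L : Finset ℤ) (z : ℤ → ℂ), 1 ≤ N → 0 ≤ X → X ≤ 4 / 2 ^ k →
    (∀ n ∈ s, 1 ≤ n ∧ |Real.log n - Real.log N| ≤ 2) →
    (∀ m ∈ L, ∀ m' ∈ L, |(m : ℝ) - m'| ≤ N ^ ((k : ℝ) - (2 ^ k - 2) * X)) →
    δ ≤ σ → (∀ m ∈ L, σ - δ ≤ (z m).re ∧ (z m).re ≤ 4 ∧ |(z m).im - m| ≤ 3) →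
    ∑ m ∈ L, ‖∑ n ∈ s, b n * (n : ℂ) ^ (-(z m))‖ ^ 2 ≤
      C * N ^ e * (1 + L.card * N ^ (-X)) * ∑ n ∈ s, (n : ℝ) ^ (1 - 2 * (σ - 2 * δ)) * ‖b n‖ ^ 2 := by
  intro k e δ hk he hδ hδ1
  obtain ⟨C, hC, h⟩ := rows k e hk he
  refine ⟨C * (36 / δ ^ 2), ?_, ?_⟩
  · have h1 : 1 ≤ 36 / δ ^ 2 := by
      rw [le_div_iff₀ (by positivity)]
      nlinarith
    nlinarith
  intro N X σ s b L z hN hX0 hX hs hL hσ hz
  have hN0 : 0 < N := by linarith
  have hs1 : ∀ n ∈ s, 1 ≤ n := fun n hn => (hs n hn).1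
  set F : ℂ → ℂ := fun w => ∑ n ∈ s, b n * (n : ℂ) ^ (-w) with hF
  have hFd : Differentiable ℂ F := by
    rw [hF]
    refine Differentiable.fun_sum fun n hn => ?_
    have hn0 : (n : ℂ) ≠ 0 := by
      have : n ≠ 0 := by have := hs1 n hn; omega
      exact_mod_cast this
    exact (differentiable_const _).mul (fun w => (differentiableAt_id.neg).const_cpow (Or.inl hn0))
  set G : ℝ := ∑ n ∈ s, (n : ℝ) ^ (1 - 2 * (σ - 2 * δ)) * ‖b n‖ ^ 2 with hG
  have hG0 : 0 ≤ G := by rw [hG]; positivity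
  set B : ℝ := C * N ^ e * (1 + L.card * N ^ (-X)) * G with hB
  have hB0 : 0 ≤ B := by rw [hB]; positivity
  -- the mean square at a common shift
  have hsh : ∀ w : ℂ, σ - 2 * δ ≤ w.re → ∑ m ∈ L, ‖F (w + m * Complex.I)‖ ^ 2 ≤ B := by
    intro w hw
    have h1 := h N X s (fun n => b n * (n : ℂ) ^ (-w)) L hN hX0 hX hs hL
    have h2 : ∑ m ∈ L, ‖F (w + m * Complex.I)‖ ^ 2 =
        ∑ m ∈ L, ‖DP s (fun n => b n * (n : ℂ) ^ (-w)) m‖ ^ 2 := by
      refine Finset.sum_congr rfl fun m _ => ?_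
      rw [DP_shift s b w m hs1]
    rw [h2]
    refine h1.trans ?_
    rw [hB]
    apply mul_le_mul_of_nonneg_left _ (by positivity)
    rw [hG]
    refine Finset.sum_le_sum fun n hn => ?_
    have hn1 : (1 : ℝ) ≤ n := by exact_mod_cast hs1 n hn
    have hn0 : (0 : ℝ) < n := by linarith
    rw [norm_mul, Complex.norm_natCast_cpow_of_pos (by have := hs1 n hn; omega), mul_pow, Complex.neg_re]
    have h3 : ((n : ℝ) ^ (-w.re)) ^ 2 ≤ (n : ℝ) ^ (-(2 * (σ - 2 * δ))) := by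
      rw [← Real.rpow_natCast, ← Real.rpow_mul hn0.le]
      apply Real.rpow_le_rpow_of_exponent_le hn1
      push_cast
      linarith
    calc (n : ℝ) * (‖b n‖ ^ 2 * ((n : ℝ) ^ (-w.re)) ^ 2) ≤
        (n : ℝ) * (‖b n‖ ^ 2 * (n : ℝ) ^ (-(2 * (σ - 2 * δ)))) := by gcongr
      _ = (n : ℝ) ^ (1 - 2 * (σ - 2 * δ)) * ‖b n‖ ^ 2 := by
          rw [sub_eq_add_neg 1, Real.rpow_add hn0, Real.rpow_one]
          ring
  -- the area mean value property
  have hms : ∀ m : ℤ, Measurable fun w : ℂ => ‖F (w + m * Complex.I)‖ₑ ^ (2 : ℝ) := by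
    intro m
    have h1 : Continuous fun w : ℂ => F (w + m * Complex.I) :=
      hFd.continuous.comp (continuous_id.add continuous_const)
    exact (h1.enorm.measurable).pow_const _
  have hpt : ∀ m ∈ L, ENNReal.ofReal (‖F (z m)‖ ^ (2 : ℝ) * (Real.pi * δ ^ 2)) ≤
      ∫⁻ w in Metric.ball (0 : ℂ) 6 ∩ {w | σ - 2 * δ ≤ w.re}, ‖F (w + m * Complex.I)‖ₑ ^ (2 : ℝ) := by
    intro m hm
    obtain ⟨hz1, hz2, hz3⟩ := hz m hm
    have h1 := Pool.Agent.H402R2.SubMean.rpow_mul_le_lintegral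
      (g := fun w => F (w + m * Complex.I)) (w := z m - m * Complex.I) (ρ := δ) (p := 2) hδ (by norm_num)
      ((hFd.comp (differentiable_id.add_const _)).differentiableOn)
    simp only [sub_add_cancel] at h1
    refine h1.trans ?_
    apply MeasureTheory.lintegral_mono_set
    intro w hw
    rw [Metric.mem_ball, dist_eq_norm] at hw
    have hre : |w.re - (z m).re| < δ := by
      have h2 := Complex.abs_re_le_norm (w - (z m - m * Complex.I))
      have h3 : (w - (z m - m * Complex.I)).re = w.re - (z m).re := by simp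
      rw [h3] at h2
      linarith
    constructor
    · rw [mem_ball_zero_iff]
      have h4 : ‖z m - m * Complex.I‖ ≤ 5 := by
        have h5 : (z m - m * Complex.I).re = (z m).re := by simp
        have h6 : (z m - m * Complex.I).im = (z m).im - m := by simp
        have h7 : ‖z m - m * Complex.I‖ ^ 2 ≤ 5 ^ 2 := by
          rw [Complex.sq_norm, Complex.normSq_apply, h5, h6]
          have h8 : 0 ≤ (z m).re := by linarith
          have h9 := abs_le.1 hz3
          nlinarith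
        exact le_of_sq_le_sq h7 (by norm_num)
      have h10 : ‖w‖ ≤ ‖w - (z m - m * Complex.I)‖ + ‖z m - m * Complex.I‖ := by
        have := norm_add_le (w - (z m - m * Complex.I)) (z m - m * Complex.I)
        rwa [sub_add_cancel] at this
      linarith
    · have := (abs_lt.1 hre).1
      show σ - 2 * δ ≤ w.re
      linarith
  have hsum : ENNReal.ofReal ((∑ m ∈ L, ‖F (z m)‖ ^ 2) * (Real.pi * δ ^ 2)) ≤
      ENNReal.ofReal (B * (Real.pi * 36)) := by
    have h1 : ENNReal.ofReal ((∑ m ∈ L, ‖F (z m)‖ ^ 2) * (Real.pi * δ ^ 2)) =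
        ∑ m ∈ L, ENNReal.ofReal (‖F (z m)‖ ^ (2 : ℝ) * (Real.pi * δ ^ 2)) := by
      rw [Finset.sum_mul, ENNReal.ofReal_sum_of_nonneg (fun m _ => by positivity)]
      refine Finset.sum_congr rfl fun m _ => ?_
      rw [Real.rpow_two]
    rw [h1]
    refine (Finset.sum_le_sum hpt).trans ?_
    rw [← MeasureTheory.lintegral_finsetSum _ (fun m _ => hms m)]
    calc ∫⁻ w in Metric.ball (0 : ℂ) 6 ∩ {w | σ - 2 * δ ≤ w.re},
          ∑ m ∈ L, ‖F (w + m * Complex.I)‖ₑ ^ (2 : ℝ) ≤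
        ∫⁻ w in Metric.ball (0 : ℂ) 6 ∩ {w | σ - 2 * δ ≤ w.re}, ENNReal.ofReal B := by
          apply MeasureTheory.setLIntegral_mono measurable_const
          intro w hw
          have h2 := hsh w hw.2
          calc ∑ m ∈ L, ‖F (w + m * Complex.I)‖ₑ ^ (2 : ℝ) =
              ENNReal.ofReal (∑ m ∈ L, ‖F (w + m * Complex.I)‖ ^ 2) := by
                rw [ENNReal.ofReal_sum_of_nonneg (fun m _ => by positivity)]
                refine Finset.sum_congr rfl fun m _ => ?_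
                rw [← ofReal_norm, ENNReal.ofReal_rpow_of_nonneg (norm_nonneg _) (by norm_num),
                  Real.rpow_two]
            _ ≤ ENNReal.ofReal B := ENNReal.ofReal_le_ofReal h2
      _ = ENNReal.ofReal B * MeasureTheory.volume (Metric.ball (0 : ℂ) 6 ∩ {w | σ - 2 * δ ≤ w.re}) := by
          rw [MeasureTheory.setLIntegral_const]
      _ ≤ ENNReal.ofReal B * MeasureTheory.volume (Metric.ball (0 : ℂ) 6) :=
          mul_le_mul_right (MeasureTheory.measure_mono Set.inter_subset_left) _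
      _ = ENNReal.ofReal (B * (Real.pi * 36)) := by
          have e1 : ENNReal.ofReal (6 : ℝ) ^ 2 * (NNReal.pi : ENNReal) = ENNReal.ofReal (Real.pi * 36) := by
            rw [← ENNReal.ofReal_pow (by norm_num), ← ENNReal.ofReal_coe_nnreal, NNReal.coe_real_pi,
              ← ENNReal.ofReal_mul (by positivity)]
            congr 1
            ring
          rw [Complex.volume_ball, ENNReal.ofReal_mul hB0, e1]
  have hfin := (ENNReal.ofReal_le_ofReal_iff (by positivity)).1 hsum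
  have hpi := Real.pi_pos
  have h1 : (∑ m ∈ L, ‖F (z m)‖ ^ 2) * δ ^ 2 ≤ B * 36 := by
    have h2 : Real.pi * ((∑ m ∈ L, ‖F (z m)‖ ^ 2) * δ ^ 2) ≤ Real.pi * (B * 36) := by linarith
    exact le_of_mul_le_mul_left h2 hpi
  have h3 : ∑ m ∈ L, ‖F (z m)‖ ^ 2 ≤ B * 36 / δ ^ 2 := by
    rw [le_div_iff₀ (by positivity)]
    exact h1
  refine h3.trans (le_of_eq ?_)
  rw [hB]
  ring

/-- covering by short intervals -/
theorem cover {U T K : ℝ} (hU : 0 ≤ U) (hT : 0 < T) (hK : 0 ≤ K) (L : Finset ℤ)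
    (hL : ∀ m ∈ L, U ≤ (m : ℝ) ∧ (m : ℝ) ≤ 2 * U)
    (h : ∀ L' ⊆ L, (∀ m ∈ L', ∀ m' ∈ L', |(m : ℝ) - m'| ≤ T) → (L'.card : ℝ) ≤ K) :
    (L.card : ℝ) ≤ K * (U / T + 1) := by
  classical
  set g : ℤ → ℕ := fun m => ⌊((m : ℝ) - U) / T⌋₊ with hg
  have h1 : ∀ m ∈ L, g m ∈ Finset.range (⌊U / T⌋₊ + 1) := by
    intro m hm
    rw [Finset.mem_range, Nat.lt_succ_iff]
    apply Nat.floor_le_floor
    apply div_le_div_of_nonneg_right _ hT.le
    linarith [(hL m hm).2]
  have h2 := Finset.card_eq_sum_card_fiberwise h1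
  have h3 : (L.card : ℝ) = ∑ j ∈ Finset.range (⌊U / T⌋₊ + 1), ((L.filter (fun m => g m = j)).card : ℝ) := by
    rw [h2]
    push_cast
    rfl
  rw [h3]
  calc ∑ j ∈ Finset.range (⌊U / T⌋₊ + 1), ((L.filter (fun m => g m = j)).card : ℝ) ≤
      ∑ j ∈ Finset.range (⌊U / T⌋₊ + 1), K := by
        refine Finset.sum_le_sum fun j _ => ?_
        apply h _ (Finset.filter_subset _ _)
        intro m hm m' hm'
        rw [Finset.mem_filter] at hm hm'
        have e1 := hm.2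
        have e2 := hm'.2
        simp only [hg] at e1 e2
        have a1 : 0 ≤ ((m : ℝ) - U) / T := div_nonneg (by linarith [(hL m hm.1).1]) hT.le
        have a2 : 0 ≤ ((m' : ℝ) - U) / T := div_nonneg (by linarith [(hL m' hm'.1).1]) hT.le
        have b1 := Nat.floor_le a1
        have b2 := Nat.lt_floor_add_one (((m : ℝ) - U) / T)
        have b3 := Nat.floor_le a2
        have b4 := Nat.lt_floor_add_one (((m' : ℝ) - U) / T)
        rw [e1] at b1 b2
        rw [e2] at b3 b4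
        rw [le_div_iff₀ hT] at b1 b3
        rw [div_lt_iff₀ hT] at b2 b4
        rw [abs_le]
        constructor <;> nlinarith
    _ = ((⌊U / T⌋₊ : ℝ) + 1) * K := by
        rw [Finset.sum_const, Finset.card_range, nsmul_eq_mul]
        push_cast
        ring
    _ ≤ _ := by
        have := Nat.floor_le (show 0 ≤ U / T by positivity)
        nlinarith

end Pool.Agent.Zk69.BD
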